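import Pool.Agent.Helper69.UX.StA

/-!
Project UX, module CHR: chaos inequality for the chromatic number.
-/

set_option autoImplicit false

namespace Pool.Agent.Helper15.UX

open Finset Filter Pool.Agent.Helper82.CN Pool.Agent.Helper11.PV Pool.Agent.Helper69.VX
  Pool.Agent.Helper69.UX

lemma ch_le' {V : Type} {G : SimpleGraph V} {c : ℕ} (h : G.Colorable c) : ch G ≤ c := by
  unfold ch
  exact_mod_cast ENat.toNat_le_of_le_natCast h.chromaticNumber_le

/-- the chromatic number as a function of the bits -/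
noncomputable def Fc (n : ℕ) (ω : Sym2 (Fin n) → Bool) : ℝ := ch (gr ω)

lemma DD_nonneg' {n : ℕ} (e : Sym2 (Fin n)) (ω : Sym2 (Fin n) → Bool) : 0 ≤ DD (Fc n) e ω := by
  unfold DD Fc
  obtain ⟨C⟩ := SimpleGraph.colorable_chromaticNumber_of_fintype (gr (Function.update ω e true))
  have hc : (gr (Function.update ω e false)).Colorable
      ((gr (Function.update ω e true)).chromaticNumber.toNat) := by
    refine ⟨SimpleGraph.Coloring.mk (fun v => C v) ?_⟩
    intro v w hvw
    refine C.valid ⟨hvw.1, ?_⟩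
    by_cases he : s(v, w) = e
    · rw [he, Function.update_self]
    · have := hvw.2
      rw [Function.update_of_ne he] at this
      rw [Function.update_of_ne he, this]
  have h2 := ch_le' hc
  have h3 : ch (gr (Function.update ω e true)) =
    ((gr (Function.update ω e true)).chromaticNumber.toNat : ℝ) := rfl
  linarith

lemma DD_le_one {n : ℕ} (e : Sym2 (Fin n)) (ω : Sym2 (Fin n) → Bool) : DD (Fc n) e ω ≤ 1 := by
  induction e using Sym2.ind with
  | _ a b =>
    unfold DD Fc
    obtain ⟨C⟩ := SimpleGraph.colorable_chromaticNumber_of_fintype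
      (gr (Function.update ω s(a, b) false))
    have hc : (gr (Function.update ω s(a, b) true)).Colorable
        ((gr (Function.update ω s(a, b) false)).chromaticNumber.toNat + 1) := by
      refine ⟨SimpleGraph.Coloring.mk (fun v => if v = a then Fin.last _ else (C v).castSucc) ?_⟩
      intro v w hvw
      by_cases hv : v = a
      · by_cases hw : w = a
        · exact absurd (hv.trans hw.symm) hvw.1
        · rw [if_pos hv, if_neg hw]
          exact (Fin.castSucc_lt_last _).ne'
      · by_cases hw : w = a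
        · rw [if_neg hv, if_pos hw]
          exact (Fin.castSucc_lt_last _).ne
        · rw [if_neg hv, if_neg hw, Ne, Fin.castSucc_inj]
          refine C.valid ⟨hvw.1, ?_⟩
          have hne : s(v, w) ≠ s(a, b) := by
            intro h
            rw [Sym2.eq_iff] at h
            rcases h with h | h
            · exact hv h.1
            · exact hw h.2
          have := hvw.2
          rw [Function.update_of_ne hne] at this
          rw [Function.update_of_ne hne, this]
    have h2 := ch_le' hc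
    rw [Nat.cast_add, Nat.cast_one] at h2
    have h3 : ch (gr (Function.update ω s(a, b) false)) =
      ((gr (Function.update ω s(a, b) false)).chromaticNumber.toNat : ℝ) := rfl
    linarith

/-- pair inside a class -/
def ic {V : Type} (P : Finset (Finset V)) (e : Sym2 V) : Prop :=
  ¬ e.IsDiag ∧ ∃ A ∈ P, ∀ x ∈ e, x ∈ A

lemma mem_Pt {V : Type} [Fintype V] {P : Finset (Finset V)} : P ∈ Pt V ↔
    (∀ A ∈ P, A.Nonempty) ∧ (∀ A ∈ P, ∀ B ∈ P, A ≠ B → Disjoint A B) ∧
    ∀ v : V, ∃ A ∈ P, v ∈ A := by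
  classical
  unfold Pt
  rw [Finset.mem_filter]
  exact ⟨fun h => h.2, fun h => ⟨Finset.mem_univ _, h⟩⟩

lemma DD_ic {n : ℕ} {e : Sym2 (Fin n)} {ω : Sym2 (Fin n) → Bool} {P : Finset (Finset (Fin n))}
    (hP : P ∈ Pt (Fin n)) (hp : prp ω P) (hc : P.card = (gr ω).chromaticNumber.toNat)
    (he : ω e = false) (hD : DD (Fc n) e ω ≠ 0) : ic P e := by
  classical
  by_contra hic
  apply hD
  refine le_antisymm ?_ (DD_nonneg' e ω)
  have hup : Function.update ω e false = ω := by
    rw [← he]; exact Function.update_eq_self e ω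
  unfold DD Fc
  rw [hup]
  have hcol : (gr (Function.update ω e true)).Colorable P.card := by
    have hcov := (mem_Pt.1 hP).2.2
    choose A hA hvA using hcov
    refine ⟨SimpleGraph.Coloring.mk (fun v => P.equivFin ⟨A v, hA v⟩) ?_⟩
    intro x y hxy heq
    have hAxy : A x = A y := by
      have := P.equivFin.injective heq
      exact congrArg Subtype.val this
    by_cases hs : s(x, y) = e
    · apply hic
      refine ⟨?_, A x, hA x, ?_⟩
      · rw [← hs]
        exact fun h => hxy.1 (Sym2.mk_isDiag_iff.1 h)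
      · intro z hz
        rw [← hs, Sym2.mem_iff] at hz
        rcases hz with rfl | rfl
        · exact hvA z
        · rw [hAxy]; exact hvA z
    · have h1 := hxy.2
      rw [Function.update_of_ne hs] at h1
      have h2 := hp (A x) (hA x) x (hvA x) y (by rw [hAxy]; exact hvA y) hxy.1
      rw [h1] at h2
      exact absurd h2 (by decide)
  have h2 := ch_le' hcol
  rw [hc] at h2
  have h3 : ch (gr ω) = ((gr ω).chromaticNumber.toNat : ℝ) := rfl
  linarith

lemma EE_bit (p : ℝ) {ι : Type} [Fintype ι] [DecidableEq ι] (e : ι) :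
    EE p (fun ω : ι → Bool => if ω e = false then (1 : ℝ) else 0) = 1 - p := by
  have h := EE_marg (ι := ι) (κ := Unit) p (fun _ => e) (fun _ _ _ => rfl)
    (fun η : Unit → Bool => if η () = false then (1 : ℝ) else 0)
  rw [h]
  unfold EE
  rw [Fintype.sum_equiv (Equiv.funUnique Unit Bool) _
    (fun b => bw p b * (if b = false then (1 : ℝ) else 0))]
  · simp [bw]
  · intro η
    simp

lemma EE_bitmul (p : ℝ) {ι : Type} [Fintype ι] [DecidableEq ι] (e : ι) (H : (ι → Bool) → ℝ)
    (hH : ∀ ω ω' : ι → Bool, (∀ i, i ≠ e → ω i = ω' i) → H ω = H ω') :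
    EE p (fun ω => (if ω e = false then (1 : ℝ) else 0) * H ω) = (1 - p) * EE p H := by
  rw [EE_indep p (fun i => i = e) (fun ω => if ω e = false then (1 : ℝ) else 0) H, EE_bit]
  · intro ω ω' h
    rw [h e rfl]
  · exact hH

lemma NN_eq (p : ℝ) {ι : Type} [Fintype ι] [DecidableEq ι] (K : Set ι) (G : (ι → Bool) → ℝ) :
    NN p K G = EE p (fun ω => EE p (fun η => G ω * G (mix K ω η))) := by
  have h1 : EE p (fun ω => G ω * AV p K G ω) = NN p K G := by
    rw [← EE_mix p K (fun ω => G ω * AV p K G ω)]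
    unfold NN
    congr 1
    funext ω
    simp only [AV_mix]
    rw [EE_mul_right, sq]
    rfl
  rw [← h1]
  congr 1
  funext ω
  rw [EE_mul_left]
  rfl

lemma DD_bit {n : ℕ} (e : Sym2 (Fin n)) (ω ω' : Sym2 (Fin n) → Bool)
    (h : ∀ i, i ≠ e → ω i = ω' i) : DD (Fc n) e ω = DD (Fc n) e ω' :=
  dep_DD (Fc n) e (dep_univ (Fc n)) ω ω' fun i hi => h i hi.2

open Classical in
lemma prod_le {n : ℕ} {e : Sym2 (Fin n)}
    (Pc : (Sym2 (Fin n) → Bool) → Finset (Finset (Fin n)))
    (hPc : ∀ ω, Pc ω ∈ Pt (Fin n) ∧ prp ω (Pc ω) ∧ (Pc ω).card = (gr ω).chromaticNumber.toNat)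
    (ω ω' : Sym2 (Fin n) → Bool) (he : ω' e = ω e) :
    (if ω e = false then (1 : ℝ) else 0) * (DD (Fc n) e ω * DD (Fc n) e ω') ≤
      if ic (Pc ω) e ∧ ic (Pc ω') e then 1 else 0 := by
  classical
  by_cases h0 : ω e = false
  · rw [if_pos h0, one_mul]
    by_cases h1 : DD (Fc n) e ω = 0
    · rw [h1, zero_mul]; split_ifs <;> norm_num
    · by_cases h2 : DD (Fc n) e ω' = 0
      · rw [h2, mul_zero]; split_ifs <;> norm_num
      · have i1 := DD_ic (hPc ω).1 (hPc ω).2.1 (hPc ω).2.2 h0 h1
        have i2 := DD_ic (hPc ω').1 (hPc ω').2.1 (hPc ω').2.2 (he.trans h0) h2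
        rw [if_pos ⟨i1, i2⟩]
        exact mul_le_one₀ (DD_le_one e ω) (DD_nonneg' e ω') (DD_le_one e ω')
  · rw [if_neg h0, zero_mul]; split_ifs <;> norm_num

open Classical in
lemma card_ic {n : ℕ} (P Q : Finset (Finset (Fin n))) :
    ((univ.filter (fun e : Sym2 (Fin n) => ic P e ∧ ic Q e)).card) ≤ ovl P Q := by
  have hsub : univ.filter (fun e : Sym2 (Fin n) => ic P e ∧ ic Q e) ⊆
      P.biUnion (fun A => Q.biUnion (fun B => (A ∩ B).offDiag.image Sym2.mk.uncurry)) := by
    intro e he
    rw [Finset.mem_filter] at he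
    obtain ⟨-, ⟨hd, A, hA, hA2⟩, -, B, hB, hB2⟩ := he
    rw [Finset.mem_biUnion]
    refine ⟨A, hA, ?_⟩
    rw [Finset.mem_biUnion]
    refine ⟨B, hB, ?_⟩
    rw [Finset.mem_image]
    induction e using Sym2.ind with
    | _ x y =>
      refine ⟨(x, y), ?_, rfl⟩
      rw [Finset.mem_offDiag]
      refine ⟨?_, ?_, fun h => hd (Sym2.mk_isDiag_iff.2 h)⟩
      · exact Finset.mem_inter.2 ⟨hA2 x (Sym2.mem_mk_left x y), hB2 x (Sym2.mem_mk_left x y)⟩
      · exact Finset.mem_inter.2 ⟨hA2 y (Sym2.mem_mk_right x y), hB2 y (Sym2.mem_mk_right x y)⟩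
  refine (Finset.card_le_card hsub).trans ?_
  refine Finset.card_biUnion_le.trans ?_
  unfold ovl
  refine Finset.sum_le_sum fun A _ => ?_
  refine Finset.card_biUnion_le.trans ?_
  refine Finset.sum_le_sum fun B _ => ?_
  have := Sym2.card_image_offDiag (A ∩ B)
  exact this.le

open Classical in
lemma card_ic1 {n : ℕ} {ω : Sym2 (Fin n) → Bool} {P : Finset (Finset (Fin n))}
    (hP : P ∈ Pt (Fin n)) (hp : prp ω P) :
    ((univ.filter (fun e : Sym2 (Fin n) => ic P e)).card) ≤ n * ind ω := by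
  have hsub : univ.filter (fun e : Sym2 (Fin n) => ic P e) ⊆
      P.biUnion (fun A => A.offDiag.image Sym2.mk.uncurry) := by
    intro e he
    rw [Finset.mem_filter] at he
    obtain ⟨-, hd, A, hA, hA2⟩ := he
    rw [Finset.mem_biUnion]
    refine ⟨A, hA, ?_⟩
    rw [Finset.mem_image]
    induction e using Sym2.ind with
    | _ x y =>
      refine ⟨(x, y), ?_, rfl⟩
      rw [Finset.mem_offDiag]
      exact ⟨hA2 x (Sym2.mem_mk_left x y), hA2 y (Sym2.mem_mk_right x y),
        fun h => hd (Sym2.mk_isDiag_iff.2 h)⟩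
  refine (Finset.card_le_card hsub).trans ?_
  refine Finset.card_biUnion_le.trans ?_
  have h1 : ∀ A ∈ P, (A.offDiag.image Sym2.mk.uncurry).card ≤ A.card * ind ω := by
    intro A hA
    have h2 := Sym2.card_image_offDiag A
    rw [h2]
    have h3 : A.card ≤ ind ω := by
      have hmem : ∀ d : DecidablePred
          (fun S : Finset (Fin n) => ∀ u ∈ S, ∀ v ∈ S, u ≠ v → ω s(u, v) = false),
          A ∈ @Finset.filter _ _ d univ := by
        intro d
        rw [Finset.mem_filter]
        exact ⟨Finset.mem_univ _, fun u hu v hv huv => hp A hA u hu v hv huv⟩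
      exact Finset.le_sup (f := Finset.card) (hmem _)
    calc A.card.choose 2 ≤ A.card * A.card := by
          rw [Nat.choose_two_right]
          exact (Nat.div_le_self _ _).trans (Nat.mul_le_mul_left _ (Nat.sub_le _ _))
      _ ≤ A.card * ind ω := Nat.mul_le_mul_left _ h3
  refine (Finset.sum_le_sum h1).trans ?_
  rw [← Finset.sum_mul]
  refine Nat.mul_le_mul_right _ ?_
  have h4 : ∑ A ∈ P, A.card = (P.biUnion id).card := by
    rw [Finset.card_biUnion]
    · rfl
    · intro A hA B hB hAB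
      exact (mem_Pt.1 hP).2.1 A hA B hB hAB
  rw [h4]
  calc (P.biUnion id).card ≤ (univ : Finset (Fin n)).card := Finset.card_le_univ _
    _ = n := by simp

theorem hCHR (hC : StCHA) : StCHR := by
  classical
  intro p t n Pc hp0 hp1 ht0 ht1 hPc
  have hp0' := hp0.le
  have hp1' := hp1.le
  -- the averages over the in-class pairs
  set a : Sym2 (Fin n) → ℝ := fun e => EE p (fun ω => if ic (Pc ω) e then (1 : ℝ) else 0) with ha
  have ha0 : ∀ e, 0 ≤ a e := fun e => EE_nonneg hp0' hp1' fun ω => by split_ifs <;> norm_num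
  set O : (Sym2 (Fin n) → Bool) → ℝ := fun κ => EE p (fun ω => EE p (fun η =>
      (ovl (Pc ω) (Pc (mix {e | κ e = true} ω η)) : ℝ))) with hO
  have hO0 : ∀ κ, 0 ≤ O κ := fun κ => EE_nonneg hp0' hp1' fun ω => EE_nonneg hp0' hp1' fun η => by
    positivity
  have hsq : ∀ e, (1 - p) * EE p (fun ω => DD (Fc n) e ω ^ 2) ≤ a e := by
    intro e
    rw [← EE_bitmul p e (fun ω => DD (Fc n) e ω ^ 2)
      (fun ω ω' h => by rw [DD_bit e ω ω' h])]
    refine EE_mono hp0' hp1' fun ω => ?_
    have := prod_le (e := e) Pc hPc ω ω rfl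
    rw [sq]
    refine this.trans (le_of_eq ?_)
    simp only [and_self]
  have hnn : ∀ (K : Set (Sym2 (Fin n))) (e : Sym2 (Fin n)), e ∈ K →
      (1 - p) * NN p K (DD (Fc n) e) ≤ EE p (fun ω => EE p (fun η =>
        if ic (Pc ω) e ∧ ic (Pc (mix K ω η)) e then (1 : ℝ) else 0)) := by
    intro K e he
    rw [NN_eq, ← EE_bitmul p e]
    · refine EE_mono hp0' hp1' fun ω => ?_
      rw [← EE_mul_left]
      refine EE_mono hp0' hp1' fun η => ?_
      exact prod_le (e := e) Pc hPc ω (mix K ω η) (mix_pos he)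
    · intro ω ω' h
      rw [DD_bit e ω ω' h]
      congr 1
      funext η
      rw [DD_bit e (mix K ω η) (mix K ω' η)]
      intro i hi
      by_cases hK : i ∈ K
      · rw [mix_pos hK, mix_pos hK, h i hi]
      · rw [mix_neg hK, mix_neg hK]
  -- fixed set of kept bits
  have hfix : ∀ κ : Sym2 (Fin n) → Bool, vn p n ≤
      ∑ e, (if κ e = false then (1 : ℝ) else 0) * a e + O κ := by
    intro κ
    set K : Set (Sym2 (Fin n)) := {e | κ e = true} with hK
    have h1 := hC p (Sym2 (Fin n)) (Fc n) K hp0' hp1'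
    have hV : vn p n = VV p (Fc n) := rfl
    rw [hV]
    refine h1.trans ?_
    have h2 : ∑ i ∈ univ.filter (fun i => i ∉ K), (1 - p) * EE p (fun ω => DD (Fc n) i ω ^ 2) ≤
        ∑ e, (if κ e = false then (1 : ℝ) else 0) * a e := by
      rw [Finset.sum_filter]
      refine Finset.sum_le_sum fun e _ => ?_
      by_cases h : κ e = true
      · have h' : ¬ (e ∉ K) := fun h2 => h2 h
        rw [if_neg h', if_neg (by rw [h]; decide), zero_mul]
      · have h' : e ∉ K := h
        rw [if_pos h', if_pos (by simpa using h), one_mul]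
        exact hsq e
    have h3 : ∑ i ∈ univ.filter (fun i => i ∈ K), (1 - p) * NN p K (DD (Fc n) i) ≤ O κ := by
      calc ∑ i ∈ univ.filter (fun i => i ∈ K), (1 - p) * NN p K (DD (Fc n) i)
          ≤ ∑ i ∈ univ.filter (fun i => i ∈ K), EE p (fun ω => EE p (fun η =>
            if ic (Pc ω) i ∧ ic (Pc (mix K ω η)) i then (1 : ℝ) else 0)) := by
            refine Finset.sum_le_sum fun i hi => ?_
            exact hnn K i (Finset.mem_filter.1 hi).2
        _ ≤ ∑ i : Sym2 (Fin n), EE p (fun ω => EE p (fun η =>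
            if ic (Pc ω) i ∧ ic (Pc (mix K ω η)) i then (1 : ℝ) else 0)) := by
            refine Finset.sum_le_sum_of_subset_of_nonneg (Finset.filter_subset _ _) ?_
            intro i _ _
            exact EE_nonneg hp0' hp1' fun ω => EE_nonneg hp0' hp1' fun η => by
              split_ifs <;> norm_num
        _ = EE p (fun ω => EE p (fun η => ∑ i : Sym2 (Fin n),
            if ic (Pc ω) i ∧ ic (Pc (mix K ω η)) i then (1 : ℝ) else 0)) := by
            rw [← EE_sum]
            congr 1
            funext ω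
            rw [← EE_sum]
        _ ≤ O κ := by
            refine EE_mono hp0' hp1' fun ω => EE_mono hp0' hp1' fun η => ?_
            rw [Finset.sum_boole]
            exact_mod_cast card_ic (Pc ω) (Pc (mix K ω η))
    have h2' : 0 ≤ ∑ i ∈ univ.filter (fun i => i ∉ K), (1 - p) * EE p (fun ω => DD (Fc n) i ω ^ 2) :=
      Finset.sum_nonneg fun i _ => mul_nonneg (by linarith)
        (EE_nonneg hp0' hp1' fun ω => sq_nonneg _)
    have h3' : 0 ≤ ∑ i ∈ univ.filter (fun i => i ∈ K), (1 - p) * NN p K (DD (Fc n) i) :=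
      Finset.sum_nonneg fun i _ => mul_nonneg (by linarith) (NN_nonneg hp0' hp1' _ _)
    have h4 : p * (1 - p) * (∑ i ∈ univ.filter (fun i => i ∉ K), EE p (fun ω => DD (Fc n) i ω ^ 2) +
        ∑ i ∈ univ.filter (fun i => i ∈ K), NN p K (DD (Fc n) i)) =
        p * (∑ i ∈ univ.filter (fun i => i ∉ K), (1 - p) * EE p (fun ω => DD (Fc n) i ω ^ 2) +
        ∑ i ∈ univ.filter (fun i => i ∈ K), (1 - p) * NN p K (DD (Fc n) i)) := by
      rw [← Finset.mul_sum, ← Finset.mul_sum]
      ring
    refine le_trans (le_of_eq ?_) (le_trans (b := p * (∑ i ∈ univ.filter (fun i => i ∉ K), (1 - p) * EE p (fun ω => DD (Fc n) i ω ^ 2) +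
        ∑ i ∈ univ.filter (fun i => i ∈ K), (1 - p) * NN p K (DD (Fc n) i))) le_rfl ?_)
    · rw [← h4]
      congr!
    calc p * (∑ i ∈ univ.filter (fun i => i ∉ K), (1 - p) * EE p (fun ω => DD (Fc n) i ω ^ 2) +
        ∑ i ∈ univ.filter (fun i => i ∈ K), (1 - p) * NN p K (DD (Fc n) i))
        ≤ 1 * (∑ i ∈ univ.filter (fun i => i ∉ K), (1 - p) * EE p (fun ω => DD (Fc n) i ω ^ 2) +
        ∑ i ∈ univ.filter (fun i => i ∈ K), (1 - p) * NN p K (DD (Fc n) i)) :=
          mul_le_mul_of_nonneg_right hp1' (add_nonneg h2' h3')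
      _ ≤ _ := by rw [one_mul]; exact add_le_add h2 h3
  have ht0' : 0 ≤ 1 - t := by linarith
  have ht1' : 1 - t ≤ 1 := by linarith
  have hE := EE_mono ht0' ht1' hfix
  rw [EE_const, EE_add, EE_sum] at hE
  refine hE.trans ?_
  refine add_le_add ?_ le_rfl
  have h5 : ∀ e ∈ (univ : Finset (Sym2 (Fin n))),
      EE (1 - t) (fun κ : Sym2 (Fin n) → Bool => (if κ e = false then (1 : ℝ) else 0) * a e) =
        t * a e := by
    intro e _
    rw [EE_mul_right, EE_bit]
    ring
  rw [Finset.sum_congr rfl h5, ← Finset.mul_sum, mul_assoc]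
  refine mul_le_mul_of_nonneg_left ?_ ht0
  rw [ha, ← EE_sum, ← EE_mul_left]
  refine EE_mono hp0' hp1' fun ω => ?_
  rw [Finset.sum_boole]
  exact_mod_cast card_ic1 (hPc ω).1 (hPc ω).2.1

end Pool.Agent.Helper15.UX
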