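import Pool.Agent.Helper69.UX.StD

/-!
Project UX, module NIP: the product of the factors.
-/

set_option autoImplicit false

namespace Pool.Agent.Helper15.UX

open Finset Filter Pool.Agent.Helper82.CN Pool.Agent.Helper11.PV Pool.Agent.Helper69.VX
  Pool.Agent.Helper69.UX

lemma geo_NIP (x : ℝ) (hx0 : 0 ≤ x) (hx1 : x < 1) (M : ℕ) :
    ∑ l ∈ Icc 1 M, x ^ l ≤ 1 / (1 - x) := by
  have h1 : (∑ l ∈ Icc 1 M, x ^ l) * (1 - x) = x - x ^ (M + 1) := by
    induction M with
    | zero => simp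
    | succ M ih =>
      rw [Finset.sum_Icc_succ_top (by omega), add_mul, ih]
      ring
  rw [le_div_iff₀ (by linarith), h1]
  have : 0 ≤ x ^ (M + 1) := by positivity
  linarith

lemma geo2_NIP (L : ℝ) (hL : 0 < L) (M : ℕ) :
    ∑ l ∈ Icc 1 M, Real.exp (L * l) ≤ Real.exp (L * M) / (1 - Real.exp (-L)) := by
  have he : Real.exp (-L) < 1 := by
    rw [Real.exp_lt_one_iff]
    linarith
  have h1 : (∑ l ∈ Icc 1 M, Real.exp (L * l)) * (1 - Real.exp (-L)) = Real.exp (L * M) - 1 := by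
    induction M with
    | zero => simp
    | succ M ih =>
      rw [Finset.sum_Icc_succ_top (by omega), add_mul, ih, mul_sub, ← Real.exp_add]
      have : L * ((M + 1 : ℕ) : ℝ) + -L = L * M := by push_cast; ring
      rw [this]
      ring
  rw [le_div_iff₀ (by linarith), h1]
  linarith

lemma gau_NIP (L : ℝ) (hL : 0 < L) (M : ℕ) :
    ∑ l ∈ Icc 1 M, Real.exp (L * l) * Real.exp (-(L * (l : ℝ) ^ 2 / 4)) ≤
      Real.exp (3 * L / 2) * (1 / (1 - Real.exp (-(L / 4)))) := by
  have he : Real.exp (-(L / 4)) < 1 := by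
    rw [Real.exp_lt_one_iff]
    linarith
  have h1 : ∀ l ∈ Icc 1 M, Real.exp (L * l) * Real.exp (-(L * (l : ℝ) ^ 2 / 4)) ≤
      Real.exp (3 * L / 2) * Real.exp (-(L / 4)) ^ l := by
    intro l _
    rw [← Real.exp_nat_mul, ← Real.exp_add, ← Real.exp_add]
    apply Real.exp_le_exp.2
    have h2 : (0 : ℝ) ≤ ((l : ℝ) - 2) * ((l : ℝ) - 3) := by
      have h3 : (0 : ℤ) ≤ ((l : ℤ) - 2) * ((l : ℤ) - 3) := by
        rcases le_or_gt (l : ℤ) 2 with h | h
        · exact mul_nonneg_of_nonpos_of_nonpos (by omega) (by omega)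
        · exact mul_nonneg (by omega) (by omega)
      exact_mod_cast h3
    nlinarith [mul_nonneg hL.le h2]
  refine (Finset.sum_le_sum h1).trans ?_
  rw [← Finset.mul_sum]
  exact mul_le_mul_of_nonneg_left (geo_NIP _ (Real.exp_pos _).le he M) (Real.exp_pos _).le

/-- the constant -/
noncomputable def C7 (L Cq C₀ : ℝ) : ℝ :=
  8 * Cq * C₀ + 8 * Real.exp 2 * Cq * C₀ + 3 +
    3 * C₀ * (Real.exp (3 * L / 2) * (1 / (1 - Real.exp (-(L / 4))))) + C₀ / (1 - Real.exp (-L))

lemma sum_NIP (L Cq C₀ : ℝ) (hL : 0 < L) (hL2 : L ≤ 2) (hCq : 1 ≤ Cq) (hC0 : 1 ≤ C₀)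
    {α : Type} [DecidableEq α] (P : Finset α) (i : α → ℕ) (T : ℕ) (f : α → ℝ) (y s K₀ : ℝ)
    (hy : 0 < y) (hs : 0 ≤ s) (hK : 0 ≤ K₀) (hi : ∀ C ∈ P, i C ≤ T)
    (hf1 : ∀ C ∈ P, y * Real.exp (L * i C) ≤ 1 / 4 → f C ≤ 3 * (y * Real.exp (L * i C)))
    (hf2 : ∀ C ∈ P, f C ≤ Cq * (1 + (i C : ℝ) ^ 2 + (max (Real.log y) 0) ^ 2))
    (hS : ∀ h, h ≤ T → ∑ C ∈ P.filter (fun C => h ≤ i C), ((i C : ℕ) : ℝ) ^ 2 ≤
      C₀ * (s + K₀ * Real.exp (-(L * (h : ℝ) ^ 2 / 4)))) :
    ∑ C ∈ P, f C ≤ C7 L Cq C₀ * (y * P.card + y * K₀ + s) := by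
  have hCq0 : 0 < Cq := by linarith
  have hC00 : 0 < C₀ := by linarith
  have he1 : Real.exp (-(L / 4)) < 1 := by rw [Real.exp_lt_one_iff]; linarith
  have he2 : Real.exp (-L) < 1 := by rw [Real.exp_lt_one_iff]; linarith
  have hd1 : 0 < 1 - Real.exp (-(L / 4)) := by linarith
  have hd2 : 0 < 1 - Real.exp (-L) := by linarith
  have ha1 : 0 ≤ 8 * Cq * C₀ := by positivity
  have ha2 : 0 ≤ 8 * Real.exp 2 * Cq * C₀ := by positivity
  have ha3 : 0 ≤ 3 * C₀ * (Real.exp (3 * L / 2) * (1 / (1 - Real.exp (-(L / 4))))) := by positivity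
  have ha4 : 0 ≤ C₀ / (1 - Real.exp (-L)) := by positivity
  have hyP : 0 ≤ y * (P.card : ℝ) := by positivity
  have hyK : 0 ≤ y * K₀ := by positivity
  rcases lt_or_ge (1 / 4) y with hy4 | hy4
  · -- large `y`
    have hl : (max (Real.log y) 0) ^ 2 ≤ 4 * y := by
      rcases le_or_gt (Real.log y) 0 with h | h
      · rw [max_eq_right h]; nlinarith
      · rw [max_eq_left h.le]
        have h1 : Real.log y = 2 * Real.log (√y) := by
          rw [Real.log_sqrt hy.le]; ring
        have h2 : Real.log (√y) ≤ √y := by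
          have := Real.log_le_sub_one_of_pos (Real.sqrt_pos.2 hy)
          linarith
        have h3 : 0 < Real.log (√y) := by linarith
        have h4 : Real.log (√y) ^ 2 ≤ √y ^ 2 := pow_le_pow_left₀ h3.le h2 2
        rw [Real.sq_sqrt hy.le] at h4
        rw [h1]
        nlinarith
    have h1 : ∀ C ∈ P, f C ≤ Cq * (8 * y) + Cq * (i C : ℝ) ^ 2 := by
      intro C hC
      refine (hf2 C hC).trans ?_
      have : 1 + (i C : ℝ) ^ 2 + (max (Real.log y) 0) ^ 2 ≤ 8 * y + (i C : ℝ) ^ 2 := by linarith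
      calc Cq * (1 + (i C : ℝ) ^ 2 + (max (Real.log y) 0) ^ 2) ≤ Cq * (8 * y + (i C : ℝ) ^ 2) :=
            mul_le_mul_of_nonneg_left this hCq0.le
        _ = _ := by ring
    have h2 := hS 0 (Nat.zero_le T)
    have h3 : P.filter (fun C => 0 ≤ i C) = P := by
      rw [Finset.filter_true_of_mem]
      intro C _
      exact Nat.zero_le _
    rw [h3] at h2
    simp only [Nat.cast_zero, ne_eq, OfNat.ofNat_ne_zero, not_false_eq_true, zero_pow, mul_zero,
      zero_div, neg_zero, Real.exp_zero, mul_one] at h2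
    have h4 : K₀ ≤ 4 * (y * K₀) := by nlinarith
    calc ∑ C ∈ P, f C ≤ ∑ C ∈ P, (Cq * (8 * y) + Cq * (i C : ℝ) ^ 2) := Finset.sum_le_sum h1
      _ = P.card * (Cq * (8 * y)) + Cq * ∑ C ∈ P, (i C : ℝ) ^ 2 := by
          rw [Finset.sum_add_distrib, Finset.sum_const, nsmul_eq_mul, Finset.mul_sum]
      _ ≤ P.card * (Cq * (8 * y)) + Cq * (C₀ * (s + 4 * (y * K₀))) := by
          have := mul_le_mul_of_nonneg_left
            (h2.trans (mul_le_mul_of_nonneg_left (by linarith : s + K₀ ≤ s + 4 * (y * K₀)) hC00.le))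
            hCq0.le
          linarith
      _ ≤ 8 * Cq * C₀ * (y * P.card + y * K₀ + s) := by
          have e1 : (P.card : ℝ) * (Cq * (8 * y)) ≤ 8 * Cq * C₀ * (y * P.card) := by
            have : (P.card : ℝ) * (Cq * (8 * y)) = 8 * Cq * 1 * (y * P.card) := by ring
            rw [this]
            exact mul_le_mul_of_nonneg_right (by nlinarith) hyP
          have e2 : 0 ≤ Cq * C₀ := by positivity
          nlinarith [mul_nonneg e2 hs, mul_nonneg e2 hyK]
      _ ≤ C7 L Cq C₀ * (y * P.card + y * K₀ + s) := by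
          refine mul_le_mul_of_nonneg_right ?_ (by positivity)
          unfold C7
          linarith
  · -- small `y`
    have hy4' : 0 < 4 * y := by linarith
    set u : ℝ := Real.log (1 / (4 * y)) with hu
    have hu0 : 0 ≤ u := Real.log_nonneg (by rw [le_div_iff₀ hy4']; linarith)
    have heu : Real.exp u = 1 / (4 * y) := Real.exp_log (by positivity)
    set h₀ : ℕ := ⌊u / L⌋₊ with hh0
    have hle : L * (h₀ : ℝ) ≤ u := by
      have := Nat.floor_le (div_nonneg hu0 hL.le)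
      rw [le_div_iff₀ hL] at this
      linarith
    have hlt : u < L * ((h₀ + 1 : ℕ) : ℝ) := by
      have := Nat.lt_floor_add_one (u / L)
      rw [div_lt_iff₀ hL] at this
      push_cast
      linarith
    have hlog : max (Real.log y) 0 = 0 := max_eq_right (Real.log_nonpos hy.le (by linarith))
    -- pointwise bound
    set M : ℕ := min h₀ T with hM
    have hpt : ∀ C ∈ P, f C ≤ 3 * y * (1 + ∑ l ∈ Icc 1 M, if l ≤ i C then Real.exp (L * l) else 0) +
        (if h₀ + 1 ≤ i C then 2 * Cq * (i C : ℝ) ^ 2 else 0) := by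
      intro C hC
      by_cases hc : h₀ + 1 ≤ i C
      · rw [if_pos hc]
        have h1 := hf2 C hC
        rw [hlog] at h1
        have h2 : (1 : ℝ) ≤ (i C : ℝ) ^ 2 := by
          have : (1 : ℝ) ≤ i C := by exact_mod_cast (by omega : 1 ≤ i C)
          nlinarith
        have h3 : 0 ≤ 3 * y * (1 + ∑ l ∈ Icc 1 M, if l ≤ i C then Real.exp (L * l) else 0) := by
          have : 0 ≤ ∑ l ∈ Icc 1 M, (if l ≤ i C then Real.exp (L * l) else 0) :=
            Finset.sum_nonneg fun l _ => by split_ifs <;> positivity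
          positivity
        have h4 : Cq * (1 + (i C : ℝ) ^ 2 + 0 ^ 2) ≤ 2 * Cq * (i C : ℝ) ^ 2 := by nlinarith
        linarith
      · rw [if_neg hc, add_zero]
        have hic : i C ≤ h₀ := by omega
        have h1 : y * Real.exp (L * i C) ≤ 1 / 4 := by
          have h2 : Real.exp (L * i C) ≤ Real.exp u := by
            apply Real.exp_le_exp.2
            refine le_trans ?_ hle
            exact mul_le_mul_of_nonneg_left (by exact_mod_cast hic) hL.le
          rw [heu] at h2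
          calc y * Real.exp (L * i C) ≤ y * (1 / (4 * y)) := mul_le_mul_of_nonneg_left h2 hy.le
            _ = 1 / 4 := by field_simp
        refine (hf1 C hC h1).trans ?_
        have h3 : Real.exp (L * i C) ≤ 1 + ∑ l ∈ Icc 1 M, (if l ≤ i C then Real.exp (L * l) else 0) := by
          rcases Nat.eq_zero_or_pos (i C) with h0 | h0
          · rw [h0]
            simp only [Nat.cast_zero, mul_zero, Real.exp_zero]
            have : 0 ≤ ∑ l ∈ Icc 1 M, (if l ≤ 0 then Real.exp (L * l) else 0) :=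
              Finset.sum_nonneg fun l _ => by split_ifs <;> positivity
            linarith
          · have hmem : i C ∈ Icc 1 M := by
              rw [Finset.mem_Icc]
              exact ⟨h0, le_min hic (hi C hC)⟩
            have := Finset.single_le_sum (f := fun l => if l ≤ i C then Real.exp (L * (l : ℝ)) else 0)
              (fun l _ => by show (0 : ℝ) ≤ (if l ≤ i C then _ else _); split_ifs <;> positivity) hmem
            simp only [le_refl, if_true] at this
            linarith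
        calc 3 * (y * Real.exp (L * i C)) = 3 * y * Real.exp (L * i C) := by ring
          _ ≤ _ := mul_le_mul_of_nonneg_left h3 (by positivity)
    -- number of classes with `i ≥ l`
    have hcount : ∀ l ∈ Icc 1 M, ((P.filter (fun C => l ≤ i C)).card : ℝ) ≤
        C₀ * (s + K₀ * Real.exp (-(L * (l : ℝ) ^ 2 / 4))) := by
      intro l hl
      rw [Finset.mem_Icc] at hl
      have hlT : l ≤ T := hl.2.trans (min_le_right _ _)
      refine le_trans ?_ (hS l hlT)
      rw [← nsmul_one, ← Finset.sum_const]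
      refine Finset.sum_le_sum fun C hC => ?_
      rw [Finset.mem_filter] at hC
      have : (1 : ℝ) ≤ i C := by exact_mod_cast (by omega : 1 ≤ i C)
      nlinarith
    have hsum1 : ∑ C ∈ P, (∑ l ∈ Icc 1 M, if l ≤ i C then Real.exp (L * l) else 0) ≤
        C₀ * s * (1 / (4 * y) / (1 - Real.exp (-L))) +
        C₀ * K₀ * (Real.exp (3 * L / 2) * (1 / (1 - Real.exp (-(L / 4))))) := by
      rw [Finset.sum_comm]
      have h1 : ∀ l ∈ Icc 1 M, ∑ C ∈ P, (if l ≤ i C then Real.exp (L * (l : ℝ)) else 0) ≤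
          C₀ * s * Real.exp (L * l) +
            C₀ * K₀ * (Real.exp (L * l) * Real.exp (-(L * (l : ℝ) ^ 2 / 4))) := by
        intro l hl
        rw [← Finset.sum_filter, Finset.sum_const, nsmul_eq_mul]
        calc ((P.filter (fun C => l ≤ i C)).card : ℝ) * Real.exp (L * l)
            ≤ (C₀ * (s + K₀ * Real.exp (-(L * (l : ℝ) ^ 2 / 4)))) * Real.exp (L * l) :=
              mul_le_mul_of_nonneg_right (hcount l hl) (Real.exp_pos _).le
          _ = _ := by ring
      refine (Finset.sum_le_sum h1).trans ?_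
      rw [Finset.sum_add_distrib, ← Finset.mul_sum, ← Finset.mul_sum]
      refine add_le_add ?_ ?_
      · refine mul_le_mul_of_nonneg_left ?_ (by positivity)
        refine (geo2_NIP L hL M).trans ?_
        refine div_le_div_of_nonneg_right ?_ hd2.le
        rw [← heu]
        apply Real.exp_le_exp.2
        refine le_trans ?_ hle
        exact mul_le_mul_of_nonneg_left (by exact_mod_cast min_le_left h₀ T) hL.le
      · exact mul_le_mul_of_nonneg_left (gau_NIP L hL M) (by positivity)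
    have hsum2 : ∑ C ∈ P, (if h₀ + 1 ≤ i C then 2 * Cq * (i C : ℝ) ^ 2 else 0) ≤
        2 * Cq * (C₀ * (s + 4 * Real.exp 2 * (y * K₀))) := by
      rw [← Finset.sum_filter, ← Finset.mul_sum]
      refine mul_le_mul_of_nonneg_left ?_ (by positivity)
      by_cases hT : h₀ + 1 ≤ T
      · refine (hS (h₀ + 1) hT).trans ?_
        refine mul_le_mul_of_nonneg_left ?_ hC00.le
        have h1 : Real.exp (-(L * ((h₀ + 1 : ℕ) : ℝ) ^ 2 / 4)) ≤ Real.exp 2 * (4 * y) := by
          have h2 : (4 * y) = Real.exp (-u) := by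
            rw [Real.exp_neg, heu, one_div, inv_inv]
          rw [h2, ← Real.exp_add]
          apply Real.exp_le_exp.2
          set H : ℝ := ((h₀ + 1 : ℕ) : ℝ) with hH
          -- `L H² / 4 ≥ u - L`
          have h3 : u * u ≤ (L * H) * (L * H) := mul_self_le_mul_self hu0 hlt.le
          have h4 : L * (L * H ^ 2 / 4) ≥ L * (u - L) := by nlinarith [sq_nonneg (u - 2 * L)]
          have h5 : L * H ^ 2 / 4 ≥ u - L := le_of_mul_le_mul_left h4 hL
          linarith
        have h6 : K₀ * Real.exp (-(L * ((h₀ + 1 : ℕ) : ℝ) ^ 2 / 4)) ≤ K₀ * (Real.exp 2 * (4 * y)) :=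
          mul_le_mul_of_nonneg_left h1 hK
        have h7 : K₀ * (Real.exp 2 * (4 * y)) = 4 * Real.exp 2 * (y * K₀) := by ring
        linarith
      · have h0 : P.filter (fun C => h₀ + 1 ≤ i C) = ∅ := by
          rw [Finset.filter_eq_empty_iff]
          intro C hC hc
          have := hi C hC
          omega
        rw [h0, Finset.sum_empty]
        positivity
    calc ∑ C ∈ P, f C ≤ ∑ C ∈ P, (3 * y * (1 + ∑ l ∈ Icc 1 M, if l ≤ i C then Real.exp (L * l) else 0) +
        (if h₀ + 1 ≤ i C then 2 * Cq * (i C : ℝ) ^ 2 else 0)) := Finset.sum_le_sum hpt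
      _ = 3 * y * (P.card + ∑ C ∈ P, (∑ l ∈ Icc 1 M, if l ≤ i C then Real.exp (L * l) else 0)) +
          ∑ C ∈ P, (if h₀ + 1 ≤ i C then 2 * Cq * (i C : ℝ) ^ 2 else 0) := by
          rw [Finset.sum_add_distrib, ← Finset.mul_sum, Finset.sum_add_distrib, Finset.sum_const,
            nsmul_eq_mul, mul_one]
      _ ≤ 3 * y * (P.card + (C₀ * s * (1 / (4 * y) / (1 - Real.exp (-L))) +
          C₀ * K₀ * (Real.exp (3 * L / 2) * (1 / (1 - Real.exp (-(L / 4))))))) +
          2 * Cq * (C₀ * (s + 4 * Real.exp 2 * (y * K₀))) := by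
          refine add_le_add ?_ hsum2
          refine mul_le_mul_of_nonneg_left ?_ (by positivity)
          linarith
      _ = 3 * (y * P.card) + 3 / 4 * (C₀ / (1 - Real.exp (-L))) * s +
          3 * C₀ * (Real.exp (3 * L / 2) * (1 / (1 - Real.exp (-(L / 4))))) * (y * K₀) +
          2 * Cq * C₀ * s + 8 * Real.exp 2 * Cq * C₀ * (y * K₀) := by
          field_simp
          ring
      _ ≤ C7 L Cq C₀ * (y * P.card + y * K₀ + s) := by
          unfold C7
          set a3 := 3 * C₀ * (Real.exp (3 * L / 2) * (1 / (1 - Real.exp (-(L / 4))))) with ha3'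
          set a4 := C₀ / (1 - Real.exp (-L)) with ha4'
          set a2 := 8 * Real.exp 2 * Cq * C₀ with ha2'
          have b1 : 0 ≤ Cq * C₀ := by positivity
          nlinarith [mul_nonneg ha1 hyP, mul_nonneg ha1 hyK, mul_nonneg b1 hs, mul_nonneg ha2 hyP,
            mul_nonneg ha2 hs, mul_nonneg ha3 hyP, mul_nonneg ha3 hs, mul_nonneg ha4 hyP,
            mul_nonneg ha4 hyK, mul_nonneg ha4 hs]

lemma Ps_pos_NIP (L y : ℝ) (hy : 0 < y) (T i : ℕ) : 1 ≤ Ps L y T i := by
  unfold Ps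
  have : 0 ≤ ∑ d ∈ Icc 1 (T + 1), (y * Real.exp (L * i)) ^ d *
      Real.exp (-(L * (d * (d - 1)) / 2)) :=
    Finset.sum_nonneg fun d _ => by positivity
  linarith

theorem hNIP (hSIZ : StSIZ) (hNIS : StNIS) (hNIQ : StNIQ) : StNIP := by
  classical
  intro p ε C₀ hp0 hp1 hε0 hε1 hC0
  have hexp2 : (0 : ℝ) < 1 / Real.exp 2 := by positivity
  have hq : 0 < 1 - p := by linarith
  have hL0 : 0 < bb p := by
    unfold bb
    apply Real.log_pos
    rw [lt_div_iff₀ hq]
    linarith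
  have hL2 : bb p ≤ 2 := by
    unfold bb
    rw [← Real.log_exp 2]
    apply Real.log_le_log (by positivity)
    rw [div_le_iff₀ hq]
    have h1 : 1 / Real.exp 2 ≤ 1 - p := by linarith
    rw [div_le_iff₀ (Real.exp_pos 2)] at h1
    linarith
  obtain ⟨Cq, hCq, hQ⟩ := hNIQ (bb p) hL0 hL2
  obtain ⟨n1, hn1⟩ := hSIZ p ε (ε / 4) 0 hp0 hp1 hε0 hε1 (by linarith)
  obtain ⟨n2, hn2⟩ := hNIS p ε hp0 hp1 hε0 hε1
  have hC7 : 1 ≤ C7 (bb p) Cq C₀ := by
    unfold C7
    have he1 : Real.exp (-(bb p / 4)) < 1 := by rw [Real.exp_lt_one_iff]; linarith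
    have he2 : Real.exp (-(bb p)) < 1 := by rw [Real.exp_lt_one_iff]; linarith
    have hd1 : 0 < 1 - Real.exp (-(bb p / 4)) := by linarith
    have hd2 : 0 < 1 - Real.exp (-(bb p)) := by linarith
    have a1 : 0 ≤ 8 * Cq * C₀ := by positivity
    have a2 : 0 ≤ 8 * Real.exp 2 * Cq * C₀ := by positivity
    have a3 : 0 ≤ 3 * C₀ * (Real.exp (3 * bb p / 2) * (1 / (1 - Real.exp (-(bb p / 4))))) := by
      positivity
    have a4 : 0 ≤ C₀ / (1 - Real.exp (-(bb p))) := by positivity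
    linarith
  refine ⟨4 * Real.exp 3 * C7 (bb p) Cq C₀ + C7 (bb p) Cq C₀ + 1, by
    have : 0 ≤ 4 * Real.exp 3 * C7 (bb p) Cq C₀ := by positivity
    linarith, max (max n1 n2) 1, ?_⟩
  intro n T N th a s K₀ P I hn hW hS hIP ha0 ha1 hs hN1 hN2
  have hnn1 : n1 ≤ n := (le_max_left _ _).trans ((le_max_left _ _).trans hn)
  have hnn2 : n2 ≤ n := (le_max_right _ _).trans ((le_max_left _ _).trans hn)
  have hn0 : 1 ≤ n := (le_max_right _ _).trans hn
  have hnR : (1 : ℝ) ≤ n := by exact_mod_cast hn0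
  have hnpos : (0 : ℝ) < n := by linarith
  have hsz := hn1 n T th hnn1 hW
  obtain ⟨hPt, hcard, hK0, hKT, hPT, hSm⟩ := hS
  have hT4 : 4 ≤ T := by have := hsz.t4.1; omega
  have hTR : (4 : ℝ) ≤ T := by exact_mod_cast hT4
  have hTpos : (0 : ℝ) < T := by linarith
  have hNpos : (0 : ℝ) < N := lt_of_lt_of_le (Real.rpow_pos_of_pos hnpos _) hN1
  have hN1' : 1 ≤ N := by
    have : 0 < N := by exact_mod_cast hNpos
    omega
  set y : ℝ := Real.exp 3 * N * T / n with hy
  have hy0 : 0 < y := by positivity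
  set v : ℝ := 4 * (T : ℝ) ^ 2 * (n : ℝ) ^ (a - 1) with hv
  have hv0 : 0 ≤ v := by positivity
  have hSF : ∀ C ∈ P, 0 ≤ SF p a n T (RR ε T) N C.card ∧ SF p a n T (RR ε T) N C.card ≤
      Real.exp (Real.log (Ps (bb p) y T (T - C.card)) + v) := by
    intro C hC
    obtain ⟨h0, h1⟩ := hn2 n T N C.card th a hnn2 hW ha0 ha1 (hcard C hC) hN1' hN2
    refine ⟨h0, h1.trans ?_⟩
    have hP1 := Ps_pos_NIP (bb p) y hy0 T (T - C.card)
    rw [Real.exp_add, Real.exp_log (by linarith)]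
    have h2 := Real.add_one_le_exp v
    calc Ps (bb p) y T (T - C.card) + v ≤ Ps (bb p) y T (T - C.card) * (1 + v) := by nlinarith
      _ ≤ Ps (bb p) y T (T - C.card) * Real.exp v := by
        refine mul_le_mul_of_nonneg_left ?_ (by linarith)
        linarith
  have hlog0 : ∀ C ∈ P, 0 ≤ Real.log (Ps (bb p) y T (T - C.card)) + v := fun C _ =>
    add_nonneg (Real.log_nonneg (Ps_pos_NIP (bb p) y hy0 T _)) hv0
  have hprod : ∏ C ∈ I, SF p a n T (RR ε T) N C.card ≤
      Real.exp (∑ C ∈ P, Real.log (Ps (bb p) y T (T - C.card)) + P.card * v) := by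
    calc ∏ C ∈ I, SF p a n T (RR ε T) N C.card
        ≤ ∏ C ∈ I, Real.exp (Real.log (Ps (bb p) y T (T - C.card)) + v) :=
          Finset.prod_le_prod (fun C hC => (hSF C (hIP hC)).1) (fun C hC => (hSF C (hIP hC)).2)
      _ = Real.exp (∑ C ∈ I, (Real.log (Ps (bb p) y T (T - C.card)) + v)) := by
          rw [Real.exp_sum]
      _ ≤ Real.exp (∑ C ∈ P, (Real.log (Ps (bb p) y T (T - C.card)) + v)) := by
          apply Real.exp_le_exp.2
          exact Finset.sum_le_sum_of_subset_of_nonneg hIP (fun C hC _ => hlog0 C hC)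
      _ = _ := by
          rw [Finset.sum_add_distrib, Finset.sum_const, nsmul_eq_mul]
  refine hprod.trans ?_
  apply Real.exp_le_exp.2
  have hmain := sum_NIP (bb p) Cq C₀ hL0 hL2 hCq hC0 P (fun C => T - C.card) T
    (fun C => Real.log (Ps (bb p) y T (T - C.card))) y s K₀ hy0 hs hK0
    (fun C _ => Nat.sub_le _ _)
    (fun C _ h => (hQ y T (T - C.card) hy0).2.1 h)
    (fun C _ => (hQ y T (T - C.card) hy0).2.2)
    (fun h hh => hSm h hh)
  have hyK : y * K₀ ≤ 2 * Real.exp 3 * N := by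
    have : y * K₀ = Real.exp 3 * N * (K₀ * T) / n := by rw [hy]; ring
    rw [this, div_le_iff₀ hnpos]
    have h1 : 0 ≤ Real.exp 3 * N := by positivity
    nlinarith [mul_le_mul_of_nonneg_left hKT h1]
  have hyP : y * P.card ≤ 2 * Real.exp 3 * N := by
    have : y * P.card = Real.exp 3 * N * ((P.card : ℝ) * T) / n := by rw [hy]; ring
    rw [this, div_le_iff₀ hnpos]
    have h1 : 0 ≤ Real.exp 3 * N := by positivity
    nlinarith [mul_le_mul_of_nonneg_left hPT h1]
  have hPv : P.card * v ≤ N := by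
    have h1 : (P.card : ℝ) * v = 4 * T * ((P.card : ℝ) * T) * (n : ℝ) ^ (a - 1) := by
      rw [hv]; ring
    have h2 : 4 * T * ((P.card : ℝ) * T) * (n : ℝ) ^ (a - 1) ≤
        4 * T * (2 * n) * (n : ℝ) ^ (a - 1) := by
      refine mul_le_mul_of_nonneg_right ?_ (by positivity)
      exact mul_le_mul_of_nonneg_left hPT (by positivity)
    have h3 : 4 * (T : ℝ) * (2 * n) * (n : ℝ) ^ (a - 1) = 8 * T * (n : ℝ) ^ a := by
      have : (n : ℝ) ^ a = n * (n : ℝ) ^ (a - 1) := by
        rw [Real.rpow_sub_one hnpos.ne']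
        field_simp
      rw [this]; ring
    have h4 : 8 * (T : ℝ) ≤ (n : ℝ) ^ (ε / 4) := by
      refine le_trans ?_ hsz.t3
      have h5 : (8 : ℝ) ≤ (T : ℝ) ^ 7 := by
        calc (8 : ℝ) ≤ 4 ^ 7 := by norm_num
          _ ≤ (T : ℝ) ^ 7 := pow_le_pow_left₀ (by norm_num) hTR 7
      calc 8 * (T : ℝ) ≤ (T : ℝ) ^ 7 * T := mul_le_mul_of_nonneg_right h5 hTpos.le
        _ = (T : ℝ) ^ 8 := by ring
    have h6 : (n : ℝ) ^ a ≤ (n : ℝ) ^ (ε / 4) := Real.rpow_le_rpow_of_exponent_le hnR ha1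
    calc (P.card : ℝ) * v ≤ 8 * T * (n : ℝ) ^ a := by rw [h1]; rw [← h3]; exact h2
      _ ≤ (n : ℝ) ^ (ε / 4) * (n : ℝ) ^ (ε / 4) := mul_le_mul h4 h6 (by positivity) (by positivity)
      _ = (n : ℝ) ^ (ε / 2) := by rw [← Real.rpow_add hnpos]; congr 1; ring
      _ ≤ (n : ℝ) ^ (1 / 2 + ε) := Real.rpow_le_rpow_of_exponent_le hnR (by linarith)
      _ ≤ N := hN1
  have hC70 : 0 ≤ C7 (bb p) Cq C₀ := by linarith
  calc ∑ C ∈ P, Real.log (Ps (bb p) y T (T - C.card)) + P.card * v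
      ≤ C7 (bb p) Cq C₀ * (y * P.card + y * K₀ + s) + N := add_le_add hmain hPv
    _ ≤ C7 (bb p) Cq C₀ * (2 * Real.exp 3 * N + 2 * Real.exp 3 * N + s) + N := by
        have : C7 (bb p) Cq C₀ * (y * P.card + y * K₀ + s) ≤
            C7 (bb p) Cq C₀ * (2 * Real.exp 3 * N + 2 * Real.exp 3 * N + s) :=
          mul_le_mul_of_nonneg_left (by linarith) hC70
        linarith
    _ ≤ (4 * Real.exp 3 * C7 (bb p) Cq C₀ + C7 (bb p) Cq C₀ + 1) * (N + s) := by
        have e1 : 0 ≤ Real.exp 3 * C7 (bb p) Cq C₀ * s := by positivity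
        have e2 : 0 ≤ C7 (bb p) Cq C₀ * N := by positivity
        nlinarith

end Pool.Agent.Helper15.UX
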